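import Pool.Graph.R_seed8.H183R2.Cop.Final

/-!
# Cops and robber on graphs of small diameter: number of cops and capture time
-/

set_option autoImplicit false
open N6ef48c04 Pool.Agent.H251R2.Cops

namespace Pool.Agent.KS6_98.CopT

open Pool.Agent.H183R2.Cop

variable {V : Type*}

/-- Near-Meyniel bound for graphs of small diameter, with capture time (the bound on the number of
cops is the library's `diameter_bound`, the time bound is new). -/
theorem diameter_time [Fintype V] (G : SimpleGraph V) (hG : G.Connected) (D : ℕ)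
    (hD : ∀ x y, G.dist x y ≤ D) :
    ∃ k m : ℕ, (k : ℝ) ≤ 15 * (D + 1) * Real.sqrt (Fintype.card V) *
        (Real.log (Fintype.card V) + 1) ^ 3 ∧
      (m : ℝ) ≤ 3 * (D + 1) * (Real.log (Fintype.card V) + 1) ^ 2 ∧
      ∃ c : Fin k → V, ∀ r : V, CopsCatchWithin G k m c r := by
  classical
  have hne : Nonempty V := hG.nonempty
  set n : ℕ := Fintype.card V with hn
  have hn1 : 1 ≤ n := Fintype.card_pos
  have hn1' : (1 : ℝ) ≤ n := by exact_mod_cast hn1
  set Λ : ℝ := Real.log n with hΛ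
  have hΛ0 : 0 ≤ Λ := Real.log_nonneg hn1'
  set J : ℕ := ⌊Λ⌋₊ + 1 with hJ
  have hJ1 : 1 ≤ J := by omega
  have hJ1' : (1 : ℝ) ≤ J := by exact_mod_cast hJ1
  have hJΛ : Λ ≤ J := by
    rw [hJ]; push_cast; exact (Nat.lt_floor_add_one Λ).le
  have hJΛ' : (J : ℝ) ≤ Λ + 1 := by
    rw [hJ]; push_cast
    linarith [Nat.floor_le hΛ0]
  set W : ℕ := J * (J * (D + 1)) with hW
  set θ₀ : ℕ := J * (D + 1) + D with hθ₀
  set N : ℕ := θ₀ + W with hN
  set q : ℝ := Real.exp (-(Λ / 2 + 3 / 2)) with hq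
  have hq0 : 0 < q := Real.exp_pos _
  -- nonempty
  have hWne : (walks G N).Nonempty := by
    obtain ⟨v⟩ := hne
    exact ⟨fun _ => v, mem_walks G N _ (fun _ => step_refl G v) (fun _ => rfl)⟩
  obtain ⟨k, hk, f, hf⟩ := greedy_cover (walks G N) (fun (S : Strat G) w => S.Catches N w) q hq0 hWne
    (by
      intro U hU hUne
      obtain ⟨T, θ, δ, hT, hθ1, hθ2, hδ, hcost⟩ := averaging (Ent U) Λ (Ent_nonneg U) (Ent_le U)
        (Ent_anti U) D J W θ₀ hJ1 le_rfl
      obtain ⟨S, U', hU', hcard, hcatch⟩ := single_cop G hG D hD U hUne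
        (fun w hw => walks_isWalk G N w (hU hw)) T θ δ hδ (by omega)
      refine ⟨S, U', hU', ?_, fun w hw => ⟨θ, by omega, hcatch w hw⟩⟩
      refine le_trans ?_ hcard
      refine mul_le_mul_of_nonneg_right ?_ (Nat.cast_nonneg _)
      rw [hq]
      refine Real.exp_le_exp.mpr (neg_le_neg (hcost.trans ?_))
      have h1 : Λ / 2 * (1 + 1 / (J : ℝ)) ^ 2 = Λ / 2 + Λ * (1 / J + 1 / (2 * J ^ 2)) := by
        ring
      have h2 : Λ * (1 / (J : ℝ) + 1 / (2 * J ^ 2)) ≤ J * (1 / J + 1 / (2 * J ^ 2)) :=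
        mul_le_mul_of_nonneg_right hJΛ (by positivity)
      have h3 : (J : ℝ) * (1 / J + 1 / (2 * J ^ 2)) = 1 + 1 / (2 * J) := by
        field_simp
      have h4 : (1 : ℝ) / (2 * J) ≤ 1 / 2 := by
        apply one_div_le_one_div_of_le <;> linarith
      linarith)
  have hcop : ∃ c : Fin k → V, ∀ r : V, CopsCatchWithin G k (N + 1) c r := by
    obtain ⟨v0⟩ := hne
    refine ⟨fun i => (f i).pos 0 (fun _ => v0), fun r => ?_⟩
    have h := cover_aux G f N (fun w hw => by
      obtain ⟨i, hi⟩ := hf (fun s => w (min s N))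
        (mem_walks G N _ (trunc_walk G N w hw) (fun t => by simp))
      exact ⟨i, catches_trunc G N w (f i) hi⟩) (N + 1) 0 (fun _ => r) rfl
      (fun _ => step_refl G _) (fun i t' ht' => absurd ht' (Nat.not_lt_zero _))
    have h2 : (fun i => (f i).pos 0 (fun _ => r)) = fun i => (f i).pos 0 (fun _ => v0) := by
      funext i
      exact (f i).causal 0 _ _ (fun s hs => absurd hs (Nat.not_lt_zero _))
    rw [h2] at h
    exact catchI_transfer G id Function.surjective_id (N + 1) _ r h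
  -- bound `k`
  have hlog : Real.log (walks G N).card ≤ (N + 1) * Λ := by
    have h1 : ((walks G N).card : ℝ) ≤ (n : ℝ) ^ (N + 1) := by exact_mod_cast walks_card G N
    have h2 : (0 : ℝ) < (walks G N).card := by exact_mod_cast hWne.card_pos
    calc Real.log (walks G N).card ≤ Real.log ((n : ℝ) ^ (N + 1)) := Real.log_le_log h2 h1
      _ = (N + 1) * Λ := by rw [Real.log_pow]; push_cast; ring
  have hqinv : 1 / q = Real.exp (3 / 2) * Real.sqrt n := by
    rw [hq, Real.exp_neg, one_div, inv_inv, Real.exp_add, mul_comm]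
    congr 1
    rw [hΛ, Real.sqrt_eq_rpow, Real.rpow_def_of_pos (by linarith)]
    congr 1; ring
  have hNb : ((N : ℝ) + 1) ≤ 3 * (Λ + 1) ^ 2 * (D + 1) := by
    have h1 : N + 1 = (J ^ 2 + J + 1) * (D + 1) := by
      rw [hN, hθ₀, hW]; ring
    have h2 : ((N : ℝ) + 1) = (J ^ 2 + J + 1) * (D + 1) := by exact_mod_cast h1
    rw [h2]
    refine mul_le_mul_of_nonneg_right ?_ (by positivity)
    have h3 : (J : ℝ) ^ 2 ≤ (Λ + 1) ^ 2 := pow_le_pow_left₀ (by linarith) hJΛ' 2
    nlinarith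
  have hs1 : 1 ≤ Real.sqrt n := by
    rw [Real.one_le_sqrt]; exact hn1'
  have hL1 : 1 ≤ (Λ + 1) ^ 3 := one_le_pow₀ (by linarith)
  have hD0 : (0 : ℝ) ≤ D := Nat.cast_nonneg D
  have hbig : 1 ≤ (D + 1) * Real.sqrt n * (Λ + 1) ^ 3 := by
    have : 1 ≤ ((D : ℝ) + 1) * Real.sqrt n := one_le_mul_of_one_le_of_one_le (by linarith) hs1
    exact one_le_mul_of_one_le_of_one_le this hL1
  refine ⟨k, N + 1, ?_, ?_, hcop⟩
  swap
  · push_cast
    refine hNb.trans (le_of_eq (by ring))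
  calc (k : ℝ) ≤ Real.log (walks G N).card / q + 1 := hk
    _ = Real.log (walks G N).card * (1 / q) + 1 := by ring
    _ ≤ ((N + 1) * Λ) * (1 / q) + 1 := by
        have := mul_le_mul_of_nonneg_right hlog (by positivity : 0 ≤ 1 / q)
        linarith
    _ = ((N + 1) * Λ) * (Real.exp (3 / 2) * Real.sqrt n) + 1 := by rw [hqinv]
    _ ≤ (3 * (Λ + 1) ^ 2 * (D + 1) * (Λ + 1)) * (14 / 3 * Real.sqrt n) + 1 := by
        have h1 : ((N : ℝ) + 1) * Λ ≤ 3 * (Λ + 1) ^ 2 * (D + 1) * (Λ + 1) :=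
          mul_le_mul hNb (by linarith) hΛ0 (by positivity)
        have h2 : Real.exp (3 / 2) * Real.sqrt n ≤ 14 / 3 * Real.sqrt n :=
          mul_le_mul_of_nonneg_right exp_three_halves (Real.sqrt_nonneg _)
        have := mul_le_mul h1 h2 (by positivity) (by positivity)
        linarith
    _ = 14 * ((D + 1) * Real.sqrt n * (Λ + 1) ^ 3) + 1 := by ring
    _ ≤ 15 * (D + 1) * Real.sqrt n * (Λ + 1) ^ 3 := by linarith


end Pool.Agent.KS6_98.CopT
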